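import Pool.Agent.H23OB.Law

/-!
# The size of the obstruction to the existence of a Bloch-Beilinson filtration
-/

set_option autoImplicit false
set_option linter.unusedSectionVars false

open CategoryTheory Limits MonoidalCategory Module Filter Topology
open Pool.Agent.Y112.SR Pool.Agent.Y112.KD Pool.Agent.N64.AF Pool.Agent.H23NC
open scoped ENNReal

namespace Pool.Agent.H23OB

universe v u w

variable {C : Type u} [Category.{v} C] [Preadditive C] [MonoidalCategory C]
  [MonoidalPreadditive C] [SymmetricCategory C] [RightRigidCategory C] [Linear ℚ C]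
  [MonoidalLinear ℚ C] {K : Type w} [Field K] [IsAlgClosed K] [Algebra ℚ K]
  {R : SuperRealisation C K} {G : Cycles R}

/-- The ratio of the dimension of a space of cycles on `S` and of the dimension of the space of all
cycles on `S` modulo numerical equivalence. -/
noncomputable def share {S : C} (V : Submodule ℚ (𝟙_ C ⟶ S)) : ℝ≥0∞ :=
  ((dimE ℚ V : ℕ∞) : ℝ≥0∞) / numRank ℚ S

/-- The law for the obstruction. -/
theorem ob_law (hR : IsReal ℚ R) (hG : G.Laws) {T : C} [ExactPairing T T] (hT : HasUnit T) :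
    ∃ N : ℝ≥0∞, Tendsto (fun n => share (G.ob (tp T n))) atTop (𝓝 N) ∧
      (N = 0 ∨ 1 ≤ N) ∧
      (N = 0 ↔ ∀ n, G.ob (tp T n) = ⊥) ∧
      (∀ (m k : ℕ), ∀ x ∈ G.ob (tp T m), tpow x (k + 1) ≠ 0 → (k : ℝ≥0∞) + 1 ≤ N) ∧
      (N ≠ ⊤ → (∀ n, Module.Finite ℚ (G.ob (tp T n))) ∧
        ∃ (p l : ℕ) (z : Fin l → (𝟙_ C ⟶ tp T p)), (l : ℝ≥0∞) ≤ N ∧
          (∀ i, z i ∈ G.ob (tp T p)) ∧
          ∀ n, G.ob (tp T n) = Submodule.span ℚ {y : 𝟙_ C ⟶ tp T n |
            ∃ (i : Fin l) (c : tp T p ⟶ tp T n), z i ≫ c = y}) :=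
  stable_law hR (J := fun X => G.ob X) Cycles.ob_stable
    (fun _ _ hx => numTriv_of_map hR (Cycles.ob_hom hR hG hx)) hT

lemma ob_eq_bot {T : C} (h : G.ob (tp T 1) = ⊥) : G.ob T = ⊥ := by
  rw [eq_bot_iff]
  intro z hz
  have h1 : z ≫ (λ_ T).inv ∈ G.ob (tp T 1) := Cycles.ob_stable _ _ z (λ_ T).inv hz
  rw [h] at h1
  have h2 : z ≫ (λ_ T).inv = 0 := (Submodule.mem_bot ℚ).1 h1
  have h3 : z = (z ≫ (λ_ T).inv) ≫ (λ_ T).hom := by
    rw [Category.assoc, Iso.inv_hom_id, Category.comp_id]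
  rw [Submodule.mem_bot, h3, h2, zero_comp]

/-- A Bloch-Beilinson filtration exists if and only if the obstruction is small. -/
theorem exists_isBB_iff_share (hR : IsReal ℚ R) (hG : G.Laws)
    (hpair : ∀ X : C, Nonempty (ExactPairing X X)) (hunit : ∀ X : C, HasUnit X) :
    (∃ F, G.IsBB F) ↔ ∀ T : C, ∃ c : ℝ≥0∞, c < 1 ∧ ∃ᶠ n in atTop,
      share (G.ob (tp T n)) ≤ c := by
  rw [Cycles.exists_isBB_iff hR hG]
  constructor
  · intro h T
    refine ⟨0, zero_lt_one, Filter.Frequently.of_forall fun n => ?_⟩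
    have h1 : Subsingleton (G.ob (tp T n)) := Submodule.subsingleton_iff_eq_bot.2 (h _)
    unfold share
    rw [dimE_eq, finrank_zero_of_subsingleton]
    simp
  · intro h T
    apply ob_eq_bot
    obtain ⟨_⟩ := hpair T
    obtain ⟨N, h1, h2, h3, -⟩ := ob_law (G := G) hR hG (hunit T)
    refine h3.1 ?_ 1
    rcases h2 with h2 | h2
    · exact h2
    · exfalso
      obtain ⟨c, hc, hf⟩ := h T
      have h4 := h1.eventually (lt_mem_nhds (hc.trans_le h2))
      obtain ⟨n, h5, h6⟩ := (hf.and_eventually h4).exists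
      exact absurd (h6.trans_le h5) (lt_irrefl _)

end Pool.Agent.H23OB
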