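import Pool.Agent.H23NC.Law2
import Pool.Agent.N64.AF.V2
import Pool.Agent.N64.AF.L1
import Pool.Agent.H23NC.EndLaw

/-!
# Bloch-Beilinson filtrations in a category of correspondences

`C` is the category of the smooth projective varieties with the Chow groups of `X × Y` (all
codimensions, rational coefficients) as morphisms.
-/

set_option autoImplicit false
set_option linter.unusedSectionVars false

open CategoryTheory MonoidalCategory Module
open Pool.Agent.Y112.SR Pool.Agent.Y112.KD Pool.Agent.N64.AF Pool.Agent.H23NC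

namespace Pool.Agent.H23OB

universe v u w

section

variable {C : Type u} [Category.{v} C] [Preadditive C] [MonoidalCategory C]
  [SymmetricCategory C] [Linear ℚ C] {K : Type w} [Field K]

/-- Degrees of correspondences, degrees of cohomology classes, and kernels of the Abel-Jacobi maps.
`CH^j(X)` is `deg (𝟙_ C) X j`. -/
structure Cycles (R : SuperRealisation C K) where
  /-- the correspondences of degree `c`: the space `CH^(dim X + c)(X × Y)` -/
  deg : ∀ X Y : C, ℤ → Submodule ℚ (X ⟶ Y)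
  /-- the cohomology `H^i(X)` -/
  coh : ∀ X : C, ℤ → Submodule K (R.H.obj X)
  /-- the kernel of the Abel-Jacobi map on the homologically trivial part of `CH^j(X)` -/
  ajk : ∀ X : C, ℤ → Submodule ℚ (𝟙_ C ⟶ X)

namespace Cycles

variable {R : SuperRealisation C K} (G : Cycles R)

/-- The value of the realisation of `f` at a cohomology class. -/
def act {X Y : C} (f : X ⟶ Y) (a : R.H.obj X) : R.H.obj Y := (R.H.map f).hom a

/-- The correspondence `f` acts as zero on `H^i(X)`. -/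
def Kills {X Y : C} (f : X ⟶ Y) (i : ℤ) : Prop := ∀ a ∈ G.coh X i, act f a = 0

/-- The known properties of the degrees and of the Abel-Jacobi maps: correspondences of degree `c`
map `CH^j(X)` to `CH^(j+c)(Y)` and `H^i(X)` to `H^(i+2c)(Y)`, the cohomology of a point has degree
zero; correspondences are compatible with the Abel-Jacobi maps, and they map the homologically
trivial part of `CH^j(X)` to the kernel of the Abel-Jacobi map if they act as zero on
`H^(2j-1)(X)`. -/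
structure Laws : Prop where
  comp : ∀ (X Y Z : C) (c d : ℤ) (f : X ⟶ Y) (g : Y ⟶ Z), f ∈ G.deg X Y c → g ∈ G.deg Y Z d →
    f ≫ g ∈ G.deg X Z (c + d)
  point : ∀ a : R.H.obj (𝟙_ C), a ∈ G.coh (𝟙_ C) 0
  coh_map : ∀ (X Y : C) (c i : ℤ) (f : X ⟶ Y) (a : R.H.obj X), f ∈ G.deg X Y c →
    a ∈ G.coh X i → act f a ∈ G.coh Y (i + 2 * c)
  ajk_deg : ∀ (X : C) (j : ℤ) (z : 𝟙_ C ⟶ X), z ∈ G.ajk X j → z ∈ G.deg (𝟙_ C) X j
  ajk_hom : ∀ (X : C) (j : ℤ) (z : 𝟙_ C ⟶ X), z ∈ G.ajk X j → R.H.map z = 0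
  ajk_comp : ∀ (X Y : C) (j c : ℤ) (z : 𝟙_ C ⟶ X) (f : X ⟶ Y), z ∈ G.ajk X j →
    f ∈ G.deg X Y c → z ≫ f ∈ G.ajk Y (j + c)
  ajk_of : ∀ (X Y : C) (j c : ℤ) (z : 𝟙_ C ⟶ X) (f : X ⟶ Y), z ∈ G.deg (𝟙_ C) X j →
    R.H.map z = 0 → f ∈ G.deg X Y c → G.Kills f (2 * j - 1) → z ≫ f ∈ G.ajk Y (j + c)

/-- A system of spaces of cycles which is stable under all correspondences. -/
def Stable (J : ∀ X : C, Submodule ℚ (𝟙_ C ⟶ X)) : Prop :=
  ∀ (X Y : C) (z : 𝟙_ C ⟶ X) (f : X ⟶ Y), z ∈ J X → z ≫ f ∈ J Y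

/-- The filtrations `F X j ν = F^ν CH^j(X)` satisfy the conditions (1), (3) and (4) of Bloch and
Beilinson, and condition (2) modulo `J`: the space `F^(j+1) CH^j(X)` is contained in `J`. -/
structure IsBBMod (J : ∀ X : C, Submodule ℚ (𝟙_ C ⟶ X))
    (F : ∀ X : C, ℤ → ℕ → Submodule ℚ (𝟙_ C ⟶ X)) : Prop where
  anti : ∀ (X : C) (j : ℤ) (ν : ℕ), F X j (ν + 1) ≤ F X j ν
  zero : ∀ (X : C) (j : ℤ), F X j 0 = G.deg (𝟙_ C) X j
  one : ∀ (X : C) (j : ℤ) (z : 𝟙_ C ⟶ X),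
    z ∈ F X j 1 ↔ z ∈ G.deg (𝟙_ C) X j ∧ R.H.map z = 0
  two : ∀ (X : C) (j : ℤ), F X j 2 = G.ajk X j
  fin : ∀ (X : C) (j : ℕ), F X j (j + 1) ≤ J X
  corr : ∀ (X Y : C) (j c : ℤ) (ν : ℕ) (z : 𝟙_ C ⟶ X) (f : X ⟶ Y), z ∈ F X j ν →
    f ∈ G.deg X Y c → z ≫ f ∈ F Y (j + c) ν
  gr : ∀ (X Y : C) (j c : ℤ) (ν : ℕ) (z : 𝟙_ C ⟶ X) (f : X ⟶ Y), z ∈ F X j ν →
    f ∈ G.deg X Y c → G.Kills f (2 * j - ν) → z ≫ f ∈ F Y (j + c) (ν + 1)

/-- The filtrations `F X j ν = F^ν CH^j(X)` form a Bloch-Beilinson filtration. -/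
def IsBB (F : ∀ X : C, ℤ → ℕ → Submodule ℚ (𝟙_ C ⟶ X)) : Prop := G.IsBBMod (fun _ => ⊥) F

/-- The smallest filtration: `CH^j(X)`, the homologically trivial part, the kernel of the
Abel-Jacobi map, and then the spaces generated by the images of the level `ν` under
correspondences which act as zero on the cohomology in the degree `2j - ν`. -/
def low : ℕ → ∀ X : C, ℤ → Submodule ℚ (𝟙_ C ⟶ X)
  | 0 => fun X j => G.deg (𝟙_ C) X j
  | 1 => fun X j => Submodule.span ℚ {z | z ∈ G.deg (𝟙_ C) X j ∧ R.H.map z = 0}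
  | 2 => fun X j => G.ajk X j
  | ν + 3 => fun Y j => Submodule.span ℚ {y | ∃ (X : C) (i c : ℤ) (z : 𝟙_ C ⟶ X) (f : X ⟶ Y),
      i + c = j ∧ z ∈ low (ν + 2) X i ∧ f ∈ G.deg X Y c ∧ G.Kills f (2 * i - (ν + 2 : ℕ)) ∧
        y = z ≫ f}

/-- The obstruction: the space generated by the images of the spaces `low (j + 1) X j` (for all
varieties `X` and all `j ≥ 0`) under all correspondences from `X` to `Y`. -/
def ob (Y : C) : Submodule ℚ (𝟙_ C ⟶ Y) :=
  Submodule.span ℚ {y | ∃ (X : C) (j : ℕ) (z : 𝟙_ C ⟶ X) (f : X ⟶ Y),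
    z ∈ G.low (j + 1) X j ∧ y = z ≫ f}

end Cycles

end

end Pool.Agent.H23OB
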