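import Pool.Agent.H23OB.Low

/-!
# The size of a subfunctor of the cycles on the powers of a variety
-/

set_option autoImplicit false
set_option linter.unusedSectionVars false

open CategoryTheory Limits MonoidalCategory Module Filter Topology
open Pool.Agent.Y112.SR Pool.Agent.Y112.KD Pool.Agent.N64.AF Pool.Agent.H23NC
open scoped ENNReal

namespace Pool.Agent.H23OB

universe v u w

variable {C : Type u} [Category.{v} C] [Preadditive C] [MonoidalCategory C]
  [MonoidalPreadditive C] [SymmetricCategory C] [RightRigidCategory C] [Linear ℚ C]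
  [MonoidalLinear ℚ C] {K : Type w} [Field K] [IsAlgClosed K] [Algebra ℚ K]
  {R : SuperRealisation C K}

/-- The tensor power of a numerically trivial class is the image of the class under a product of
numerically trivial correspondences. -/
lemma tpow_factor (hR : IsReal ℚ R) {T : C} {m : ℕ} {x : 𝟙_ C ⟶ tp T m} (hx : NumTriv x)
    (k : ℕ) : ∀ (b : ℕ) (j : tp (tp T m) (k + 1) ⟶ tp T b),
      ∃ g : tp T m ⟶ tp T b, NumPow T k g ∧ tpow x (k + 1) ≫ j = x ≫ g := by
  induction k with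
  | zero =>
    intro b j
    refine ⟨(λ_ (tp T m)).inv ≫ j, trivial, ?_⟩
    change (𝟙 (𝟙_ C) ≫ (ρ_ (𝟙_ C)).inv ≫ (𝟙_ C ◁ x)) ≫ j = _
    rw [Category.id_comp, Category.assoc, ← Category.assoc x, leftUnitor_inv_naturality,
      unitors_inv_equal, Category.assoc]
  | succ k ih =>
    intro b j
    obtain ⟨b', ⟨i⟩⟩ := N690V2.exists_iso T m (k + 1)
    obtain ⟨g, h1, h2⟩ := ih b' i.hom
    refine ⟨g ≫ (i.inv ≫ (ρ_ (tp (tp T m) (k + 1))).inv) ≫ (tp (tp T m) (k + 1) ◁ x) ≫ j,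
      ⟨b', g, _, h1, NumTriv.comp hR (NumTriv.whiskerLeft hR hx _) _ _, rfl⟩, ?_⟩
    rw [← Category.assoc x g, ← h2]
    change (tpow x (k + 1) ≫ (ρ_ (tp (tp T m) (k + 1))).inv ≫ (tp (tp T m) (k + 1) ◁ x)) ≫ j = _
    simp only [Category.assoc, Iso.hom_inv_id_assoc]

/-- A stable system of spaces of cycles is a functor. -/
lemma isStab {J : ∀ X : C, Submodule ℚ (𝟙_ C ⟶ X)} (hJ : Cycles.Stable J) :
    IsStab (homF ℚ (𝟙_ C)) (fun Z : C => J Z) := fun _ _ f _ hx => hJ _ _ _ f hx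

/-- **The law for stable systems of homologically trivial cycles.** -/
theorem stable_law (hR : IsReal ℚ R) {J : ∀ X : C, Submodule ℚ (𝟙_ C ⟶ X)}
    (hJ : Cycles.Stable J) {T : C} (hJh : ∀ (n : ℕ), ∀ x ∈ J (tp T n), NumTriv x)
    [ExactPairing T T] (hT : HasUnit T) :
    ∃ N : ℝ≥0∞,
      Tendsto (fun n => ((dimE ℚ (J (tp T n)) : ℕ∞) : ℝ≥0∞) / numRank ℚ (tp T n)) atTop
        (𝓝 N) ∧
      (N = 0 ∨ 1 ≤ N) ∧
      (N = 0 ↔ ∀ n, J (tp T n) = ⊥) ∧
      (∀ (m k : ℕ), ∀ x ∈ J (tp T m), tpow x (k + 1) ≠ 0 → (k : ℝ≥0∞) + 1 ≤ N) ∧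
      (N ≠ ⊤ → (∀ n, Module.Finite ℚ (J (tp T n))) ∧
        ∃ (p l : ℕ) (z : Fin l → (𝟙_ C ⟶ tp T p)), (l : ℝ≥0∞) ≤ N ∧ (∀ i, z i ∈ J (tp T p)) ∧
          ∀ n, J (tp T n) = Submodule.span ℚ {y : 𝟙_ C ⟶ tp T n |
            ∃ (i : Fin l) (c : tp T p ⟶ tp T n), z i ≫ c = y}) := by
  obtain ⟨N, h1, h2, h3, h4⟩ := law_functor hR hT (sub (homF ℚ (𝟙_ C)) (fun Z : C => J Z)
    (isStab hJ))
  refine ⟨N, h1, h2, ?_, ?_, ?_⟩
  · rw [h3]
    refine forall_congr' fun n => ?_
    change Subsingleton (J (tp T n)) ↔ _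
    exact Submodule.subsingleton_iff_eq_bot
  · intro m k x hx hne
    by_contra hlt
    have hN : N ≠ ⊤ := by
      rintro rfl
      exact hlt le_top
    obtain ⟨-, ι, _, e, d, -, -, h5, -, h6, -⟩ := h4 hN
    have h7 : Fintype.card ι ≤ k := by
      by_contra h8
      push Not at h8
      apply hlt
      have h9 : ((k + 1 : ℕ) : ℝ≥0∞) ≤ Fintype.card ι := by exact_mod_cast h8
      push_cast at h9
      exact h9.trans h5
    obtain ⟨b, ⟨j⟩⟩ := N690V2.exists_iso T m (k + 1)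
    obtain ⟨g, h8, h9⟩ := tpow_factor hR (hJh m x hx) k b j.hom
    have h10 := h6 m b g (h8.mono h7)
    have h11 := sub_map_val (isStab hJ) g (⟨x, hx⟩ : J (tp T m))
    have h12 : ((sub (homF ℚ (𝟙_ C)) (fun Z : C => J Z) (isStab hJ)).map g).hom
        (⟨x, hx⟩ : J (tp T m)) = 0 := by
      rw [h10]
      rfl
    rw [h12] at h11
    have h13 : x ≫ g = 0 := h11.symm
    apply hne
    have h14 : tpow x (k + 1) = (tpow x (k + 1) ≫ j.hom) ≫ j.inv := by
      rw [Category.assoc, Iso.hom_inv_id, Category.comp_id]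
    rw [h14, h9, h13, zero_comp]
  · intro hN
    obtain ⟨hfin, ι, _, e, d, -, -, h5, -, -, p, l, z, hl, hz⟩ := h4 hN
    refine ⟨fun n => hfin.fin n, p, l, fun i => (z i : J (tp T p)).1, ?_,
      fun i => (z i : J (tp T p)).2, fun n => ?_⟩
    · have : (l : ℝ≥0∞) ≤ Fintype.card ι := by exact_mod_cast hl
      exact this.trans h5
    · apply le_antisymm
      · intro y hy
        have h9 := hz n (⟨y, hy⟩ : J (tp T n))
        unfold gen at h9
        have key : ∀ q : J (tp T n), q ∈ Submodule.span ℚ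
            {y : (sub (homF ℚ (𝟙_ C)) (fun Z : C => J Z) (isStab hJ)).obj (tp T n) |
              ∃ (i : Fin l) (c : tp T p ⟶ tp T n),
              ((sub (homF ℚ (𝟙_ C)) (fun Z : C => J Z) (isStab hJ)).map c).hom (z i) = y} →
            q.1 ∈ Submodule.span ℚ {y' : 𝟙_ C ⟶ tp T n | ∃ (i : Fin l) (c : tp T p ⟶ tp T n),
              (z i : J (tp T p)).1 ≫ c = y'} := by
          intro q hq
          induction hq using Submodule.span_induction with
          | mem q hq =>
            obtain ⟨i, c, rfl⟩ := hq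
            exact Submodule.subset_span ⟨i, c, rfl⟩
          | zero => exact Submodule.zero_mem _
          | add a b _ _ ha hb => exact Submodule.add_mem _ ha hb
          | smul s a _ ha => exact Submodule.smul_mem _ s ha
        exact key _ h9
      · rw [Submodule.span_le]
        rintro _ ⟨i, c, rfl⟩
        exact hJ _ _ _ c (z i : J (tp T p)).2

end Pool.Agent.H23OB
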