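import Pool.Agent.H23OB.Defs

/-!
# The smallest filtration and the obstruction
-/

set_option autoImplicit false
set_option linter.unusedSectionVars false

open CategoryTheory MonoidalCategory Module
open Pool.Agent.Y112.SR Pool.Agent.Y112.KD Pool.Agent.N64.AF Pool.Agent.H23NC

namespace Pool.Agent.H23OB

universe v u w

variable {C : Type u} [Category.{v} C] [Preadditive C] [MonoidalCategory C]
  [SymmetricCategory C] [Linear ℚ C] {K : Type w} [Field K] [Algebra ℚ K]

namespace Cycles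

variable {R : SuperRealisation C K} {G : Cycles R}

lemma act_comp {X Y Z : C} (f : X ⟶ Y) (g : Y ⟶ Z) (a : R.H.obj X) :
    act (f ≫ g) a = act g (act f a) := by
  unfold act
  rw [R.H.map_comp]
  rfl

lemma kills_comp {X Y Z : C} {f : X ⟶ Y} {i : ℤ} (h : G.Kills f i) (g : Y ⟶ Z) :
    G.Kills (f ≫ g) i := by
  intro a ha
  rw [act_comp, h a ha]
  exact map_zero _

lemma mem_low_one (hR : IsReal ℚ R) {X : C} {j : ℤ} {z : 𝟙_ C ⟶ X} :
    z ∈ G.low 1 X j ↔ z ∈ G.deg (𝟙_ C) X j ∧ R.H.map z = 0 := by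
  constructor
  · intro h
    change z ∈ Submodule.span ℚ _ at h
    induction h using Submodule.span_induction with
    | mem x h => exact h
    | zero => exact ⟨Submodule.zero_mem _, R.H.map_zero _ _⟩
    | add a b _ _ ha hb =>
      exact ⟨Submodule.add_mem _ ha.1 hb.1, by rw [R.H.map_add, ha.2, hb.2, add_zero]⟩
    | smul c a _ ha =>
      exact ⟨Submodule.smul_mem _ c ha.1, by rw [hR.lin, ha.2, smul_zero]⟩
  · intro h
    exact Submodule.subset_span h

lemma low_corr (hR : IsReal ℚ R) (hG : G.Laws) : ∀ (ν : ℕ) (X Y : C) (j c : ℤ) (z : 𝟙_ C ⟶ X)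
    (f : X ⟶ Y), z ∈ G.low ν X j → f ∈ G.deg X Y c → z ≫ f ∈ G.low ν Y (j + c)
  | 0, X, Y, j, c, z, f, hz, hf => hG.comp _ _ _ _ _ _ _ hz hf
  | 1, X, Y, j, c, z, f, hz, hf => by
    rw [mem_low_one hR] at hz ⊢
    exact ⟨hG.comp _ _ _ _ _ _ _ hz.1 hf, by rw [R.H.map_comp, hz.2, Limits.zero_comp]⟩
  | 2, X, Y, j, c, z, f, hz, hf => hG.ajk_comp _ _ _ _ _ _ hz hf
  | ν + 3, X, Y, j, c, z, f, hz, hf => by
    change z ∈ Submodule.span ℚ _ at hz
    change z ≫ f ∈ Submodule.span ℚ _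
    induction hz using Submodule.span_induction with
    | mem x h =>
      obtain ⟨X', i, c', z', g, h1, h2, h3, h4, rfl⟩ := h
      exact Submodule.subset_span ⟨X', i, c' + c, z', g ≫ f, by rw [← add_assoc, h1], h2,
        hG.comp _ _ _ _ _ _ _ h3 hf, kills_comp h4 f, Category.assoc _ _ _⟩
    | zero => rw [Limits.zero_comp]; exact Submodule.zero_mem _
    | add a b _ _ ha hb => rw [Preadditive.add_comp]; exact Submodule.add_mem _ ha hb
    | smul q a _ ha => rw [Linear.smul_comp]; exact Submodule.smul_mem _ q ha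

lemma low_anti (hR : IsReal ℚ R) (hG : G.Laws) : ∀ (ν : ℕ) (X : C) (j : ℤ),
    G.low (ν + 1) X j ≤ G.low ν X j
  | 0, X, j => by
    intro z hz
    exact ((mem_low_one hR).1 hz).1
  | 1, X, j => by
    intro z hz
    exact (mem_low_one hR).2 ⟨hG.ajk_deg _ _ _ hz, hG.ajk_hom _ _ _ hz⟩
  | 2, X, j => by
    change Submodule.span ℚ _ ≤ _
    rw [Submodule.span_le]
    rintro _ ⟨X', i, c', z', g, h1, h2, h3, h4, rfl⟩
    rw [← h1]
    exact hG.ajk_comp _ _ _ _ _ _ h2 h3
  | ν + 3, X, j => by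
    change Submodule.span ℚ _ ≤ _
    rw [Submodule.span_le]
    rintro _ ⟨X', i, c', z', g, h1, h2, h3, h4, rfl⟩
    rw [← h1]
    exact low_corr hR hG (ν + 3) X' X i c' z' g h2 h3

lemma low_gr (hR : IsReal ℚ R) (hG : G.Laws) : ∀ (ν : ℕ) (X Y : C) (j c : ℤ) (z : 𝟙_ C ⟶ X)
    (f : X ⟶ Y), z ∈ G.low ν X j → f ∈ G.deg X Y c → G.Kills f (2 * j - ν) →
      z ≫ f ∈ G.low (ν + 1) Y (j + c)
  | 0, X, Y, j, c, z, f, hz, hf, hk => by
    rw [mem_low_one hR]
    refine ⟨hG.comp _ _ _ _ _ _ _ hz hf, ?_⟩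
    ext a
    change act (z ≫ f) a = 0
    rw [act_comp]
    apply hk
    have h1 := hG.coh_map _ _ _ _ z a hz (hG.point a)
    have h2 : (0 : ℤ) + 2 * j = 2 * j - ((0 : ℕ) : ℤ) := by push_cast; ring
    rwa [h2] at h1
  | 1, X, Y, j, c, z, f, hz, hf, hk => by
    rw [mem_low_one hR] at hz
    exact hG.ajk_of _ _ _ _ _ _ hz.1 hz.2 hf (by exact_mod_cast hk)
  | ν + 2, X, Y, j, c, z, f, hz, hf, hk =>
    Submodule.subset_span ⟨X, j, c, z, f, rfl, hz, hf, hk, rfl⟩

lemma low_le (hR : IsReal ℚ R) {J : ∀ X : C, Submodule ℚ (𝟙_ C ⟶ X)}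
    {F : ∀ X : C, ℤ → ℕ → Submodule ℚ (𝟙_ C ⟶ X)} (hF : G.IsBBMod J F) :
    ∀ (ν : ℕ) (X : C) (j : ℤ), G.low ν X j ≤ F X j ν
  | 0, X, j => by rw [hF.zero]; exact le_rfl
  | 1, X, j => by
    intro z hz
    exact (hF.one _ _ _).2 ((mem_low_one hR).1 hz)
  | 2, X, j => by rw [hF.two]; exact le_rfl
  | ν + 3, X, j => by
    change Submodule.span ℚ _ ≤ _
    rw [Submodule.span_le]
    rintro _ ⟨X', i, c', z', g, h1, h2, h3, h4, rfl⟩
    rw [← h1]
    exact hF.gr X' X i c' (ν + 2) z' g (low_le hR hF (ν + 2) X' i h2) h3 h4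

lemma ob_stable : Stable (fun X : C => G.ob X) := by
  intro X Y z f hz
  change z ∈ Submodule.span ℚ _ at hz
  change z ≫ f ∈ Submodule.span ℚ _
  induction hz using Submodule.span_induction with
  | mem x h =>
    obtain ⟨X', j, z', g, h1, rfl⟩ := h
    exact Submodule.subset_span ⟨X', j, z', g ≫ f, h1, Category.assoc _ _ _⟩
  | zero => rw [Limits.zero_comp]; exact Submodule.zero_mem _
  | add a b _ _ ha hb => rw [Preadditive.add_comp]; exact Submodule.add_mem _ ha hb
  | smul q a _ ha => rw [Linear.smul_comp]; exact Submodule.smul_mem _ q ha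

/-- The smallest filtration is of Bloch-Beilinson type modulo the obstruction. -/
theorem isBBMod_ob (hR : IsReal ℚ R) (hG : G.Laws) :
    G.IsBBMod (fun X => G.ob X) (fun X j ν => G.low ν X j) where
  anti X j ν := low_anti hR hG ν X j
  zero X j := rfl
  one X j z := mem_low_one hR
  two X j := rfl
  fin X j z hz := Submodule.subset_span ⟨X, j, z, 𝟙 X, hz, (Category.comp_id z).symm⟩
  corr X Y j c ν z f := low_corr hR hG ν X Y j c z f
  gr X Y j c ν z f := low_gr hR hG ν X Y j c z f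

/-- The obstruction is the smallest stable system modulo which there is a filtration. -/
theorem ob_le (hR : IsReal ℚ R) {J : ∀ X : C, Submodule ℚ (𝟙_ C ⟶ X)} (hJ : Stable J)
    {F : ∀ X : C, ℤ → ℕ → Submodule ℚ (𝟙_ C ⟶ X)} (hF : G.IsBBMod J F) (X : C) :
    G.ob X ≤ J X := by
  change Submodule.span ℚ _ ≤ _
  rw [Submodule.span_le]
  rintro _ ⟨X', j, z, f, h1, rfl⟩
  exact hJ _ _ _ _ (hF.fin X' j (low_le hR hF (j + 1) X' j h1))

/-- A Bloch-Beilinson filtration exists if and only if the obstruction vanishes. -/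
theorem exists_isBB_iff (hR : IsReal ℚ R) (hG : G.Laws) :
    (∃ F, G.IsBB F) ↔ ∀ X : C, G.ob X = ⊥ := by
  constructor
  · rintro ⟨F, hF⟩ X
    rw [eq_bot_iff]
    refine ob_le (J := fun _ => ⊥) hR ?_ hF X
    intro Y Z z f hz
    have h1 : z = 0 := (Submodule.mem_bot ℚ).1 hz
    rw [h1, Limits.zero_comp]
    exact Submodule.zero_mem _
  · intro h
    refine ⟨fun X j ν => G.low ν X j, ?_⟩
    have h1 := isBBMod_ob (G := G) hR hG
    have h2 : (fun X : C => G.ob X) = fun _ => ⊥ := funext h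
    rw [h2] at h1
    exact h1

/-- The obstruction consists of homologically trivial classes if the classes in `CH^0` which are
homologically trivial vanish. -/
lemma low_hom (hR : IsReal ℚ R) (hG : G.Laws) (ν : ℕ) (X : C) (j : ℤ) {z : 𝟙_ C ⟶ X}
    (hz : z ∈ G.low (ν + 1) X j) : R.H.map z = 0 := by
  induction ν with
  | zero => exact ((mem_low_one hR).1 hz).2
  | succ ν ih => exact ih (low_anti hR hG (ν + 1) X j hz)

lemma ob_hom (hR : IsReal ℚ R) (hG : G.Laws) {X : C} {z : 𝟙_ C ⟶ X} (hz : z ∈ G.ob X) :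
    R.H.map z = 0 := by
  change z ∈ Submodule.span ℚ _ at hz
  induction hz using Submodule.span_induction with
  | mem x h =>
    obtain ⟨X', j, z', g, h1, rfl⟩ := h
    rw [R.H.map_comp, low_hom hR hG j X' j h1, Limits.zero_comp]
  | zero => exact R.H.map_zero _ _
  | add a b _ _ ha hb => rw [R.H.map_add, ha, hb, add_zero]
  | smul q a _ ha => rw [hR.lin, ha, smul_zero]

end Cycles

end Pool.Agent.H23OB
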